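import Pool.Agent.SPX.Stmts

/-!
# SPX, rows DOM, SMI, EIG
-/

set_option autoImplicit false

open MeasureTheory ProbabilityTheory Filter

open scoped InnerProductSpace ENNReal Topology ComplexConjugate

noncomputable section

namespace Pool.Agent.SPX.H54

open Pool.Agent.Anderson Pool.Agent.Loc Pool.Agent.Helper54.Bal Pool.Agent.LE.CH Pool.Agent.SPX

variable {d : ℕ}

/-- the values of `ham V` -/
theorem ham_apply (V : Site d → ℝ) (u : (ham V).domain) (x : Site d) :
    ham V u x = lap (u : L2 d) x + (V x : ℂ) * (u : L2 d) x := rfl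

theorem mem_domain {V : Site d → ℝ} {u : L2 d} :
    u ∈ (ham V).domain ↔ Memℓp (fun x => lap u x + (V x : ℂ) * u x) 2 := Iff.rfl

/-- a vector `w` with `w = H u` -/
theorem mem_domain_of {V : Site d → ℝ} {u w : L2 d}
    (h : ∀ x, w x = lap u x + (V x : ℂ) * u x) : u ∈ (ham V).domain := by
  rw [mem_domain]
  have h1 : (fun x => lap u x + (V x : ℂ) * u x) = fun x => w x := by
    funext x
    exact (h x).symm
  rw [h1]
  exact lp.memℓp w

theorem ham_eq_of {V : Site d → ℝ} {u w : L2 d}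
    (h : ∀ x, w x = lap u x + (V x : ℂ) * u x) (hu : u ∈ (ham V).domain) :
    ham V ⟨u, hu⟩ = w := by
  ext x
  rw [ham_apply, h x]

theorem G_ham (V : Site d → ℝ) {z : ℂ} (hz : z.im ≠ 0) (v : (ham V).domain) :
    G V z (ham V v - z • (v : L2 d)) = v := by
  symm
  apply G_unique hz
  intro x
  rw [lp.coeFn_sub, Pi.sub_apply, lp.coeFn_smul, Pi.smul_apply, smul_eq_mul, ham_apply]
  ring

theorem dom : DomStmt := by
  intro d V z hz
  refine ⟨fun u => ?_, G_ham V hz⟩
  have h1 : ∀ x, (u + z • G V z u : L2 d) x = lap (G V z u) x + (V x : ℂ) * G V z u x := by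
    intro x
    have h2 := G_eq (V := V) hz u x
    rw [lp.coeFn_add, Pi.add_apply, lp.coeFn_smul, Pi.smul_apply, smul_eq_mul]
    linear_combination -h2
  exact ⟨mem_domain_of h1, ham_eq_of h1 _⟩

theorem smi : SmiStmt := by
  intro d V u μ
  constructor
  · rintro ⟨h1, h2⟩
    refine ⟨h1, fun z hz => ?_⟩
    obtain ⟨h3, h4⟩ := (dom d V z hz).1 u
    refine h2 z ⟨G V z u, h3⟩ hz ?_
    rw [h4]
    exact add_sub_cancel_right u (z • G V z u)
  · rintro ⟨h1, h2⟩
    refine ⟨h1, fun z v hz hv => ?_⟩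
    have h3 := G_ham V hz v
    rw [hv] at h3
    rw [← h3, ← h2 z hz]

theorem norm_site (x : Site d) : ‖x‖ = (sd 0 x : ℝ) := by
  apply le_antisymm
  · rw [pi_norm_le_iff_of_nonneg (Nat.cast_nonneg _)]
    intro i
    rw [Int.norm_eq_abs, ← Int.cast_abs, Int.abs_eq_natAbs, Int.cast_natCast, Nat.cast_le]
    unfold sd
    have h := Finset.le_sup (f := fun i : Fin d => ((0 : Site d) i - x i).natAbs)
      (Finset.mem_univ i)
    simp only [Pi.zero_apply, zero_sub, Int.natAbs_neg] at h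
    simpa using h
  · have h : ∀ i ∈ (Finset.univ : Finset (Fin d)), ((0 : Site d) i - x i).natAbs ≤ ⌊‖x‖⌋₊ := by
      intro i _
      rw [Nat.le_floor_iff (norm_nonneg _)]
      have h1 := norm_le_pi_norm x i
      rw [Int.norm_eq_abs, ← Int.cast_abs, Int.abs_eq_natAbs, Int.cast_natCast] at h1
      simpa using h1
    have h2 : sd 0 x ≤ ⌊‖x‖⌋₊ := Finset.sup_le h
    exact (Nat.le_floor_iff (norm_nonneg _)).1 h2

theorem eigenvector_iff {V : Site d → ℝ} {E : ℝ} {u : L2 d} :
    IsEigenvector (ham V) E u ↔ u ≠ 0 ∧ IsEigen V E u := by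
  constructor
  · rintro ⟨h1, h2, h3⟩
    refine ⟨h1, fun x => ?_⟩
    have h4 := congrArg (fun g : L2 d => g x) h3
    exact h4
  · rintro ⟨h1, h2⟩
    have h3 : ∀ x, ((E : ℂ) • u : L2 d) x = lap u x + (V x : ℂ) * u x := fun x => (h2 x).symm
    exact ⟨h1, mem_domain_of h3, ham_eq_of h3 _⟩

theorem eig : EigStmt := fun _ _ _ _ => ⟨eigenvector_iff, norm_site⟩

end Pool.Agent.SPX.H54
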