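import Pool.Agent.Helper54_SPX.Ppt
import Pool.Agent.Helper67_SPX.Atm
import Pool.Agent.Helper68_SPX.Par
import Pool.Agent.Helper68_SPX.Spr
import Pool.Agent.Helper89_SPX.Saj
import Pool.Agent.Helper89_SPX.Wtb
import Pool.Agent.Helper89_SPX.Nzr
import Pool.Agent.Helper41_SPX.UNM
import Pool.Agent.Helper41_SPX.OPN

/-!
# SPX: all the rows
-/

set_option autoImplicit false

namespace Pool.Agent.SPX.H54

theorem sajT : SajStmt := H89.saj

theorem exmT : ExmStmt := H68.exm

theorem unmT : UnmStmt := H41.unm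

theorem wtbT : WtbStmt := H89.wtb

theorem opnT : OpnStmt := H41.opn wtbT

theorem parT : ParStmt := H68.par unmT

theorem atmT : AtmStmt := H67.atm

theorem pptT : PptStmt := ppt exmT opnT parT

theorem ppcT : PpcStmt := ppc exmT atmT opnT

theorem nzrT : NzrStmt := H89.nzr exmT opnT

theorem sprT : SprStmt := H68.spr

end Pool.Agent.SPX.H54
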