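import Pool.Agent.Helper54_SPX.Ppt
import Pool.Agent.Helper54_EXT.Edge
import Pool.Agent.Helper54_EXT.Handin

/-!
# SPX, row ASM: the phase diagram with the literal spectral theory
-/

set_option autoImplicit false

open MeasureTheory ProbabilityTheory Filter

open scoped InnerProductSpace ENNReal Topology ComplexConjugate

noncomputable section

namespace Pool.Agent.SPX.H54

open Pool.Agent.Anderson Pool.Agent.Loc Pool.Agent.Helper54.Bal Pool.Agent.LE.CH Pool.Agent.SPX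
open Pool.Agent.LE.CH.H93 (LocIn)
open Pool.Agent.EXT.H54 (InSpec NoEv EvDense)
open Pool.Agent.EXT.H54.Handin (latticeGreen latticeGreen_eq)

universe u

variable {d : ℕ}

/-- self-adjointness and the spectral measures, for all potentials -/
theorem well_posed (saj : SajStmt) (exm : ExmStmt) (unm : UnmStmt) (d : ℕ) (V : Site d → ℝ) :
    IsSelfAdjoint (ham V) ∧ ∀ u : L2 d, ∃! μ : Measure ℝ, IsSpectralMeasure (ham V) u μ := by
  refine ⟨saj d V, fun u => ?_⟩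
  obtain ⟨μ, hμ⟩ := exm d V u
  refine ⟨μ, (smi d V u μ).2 hμ, fun ν hν => ?_⟩
  have hν' := (smi d V u ν).1 hν
  exact unm ν μ hν'.1 hμ.1 fun z hz => (hν'.2 z hz).symm.trans (hμ.2 z hz)

/-- from `LocIn` to `LocalizedIn` -/
theorem localized_of (ppt : PptStmt) {V : Site d → ℝ} {O I : Set ℝ} (hO : IsOpen O)
    (hOI : O ⊆ I) (hI : (I \ O).Countable) (h : LocIn V I) : LocalizedIn V I := by
  refine ⟨ppt d V O I hO (fun a r har => h.1 a r (har.trans hOI)) hI, fun E hE u hu => ?_⟩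
  obtain ⟨m, C, hm, hC⟩ := h.2 E hE u (eigenvector_iff.1 hu).2
  refine ⟨m, C, hm, fun x => ?_⟩
  rw [norm_site]
  exact hC x

/-- from `LocalizedIn` to `LocIn` -/
theorem locIn_of (ppc : PpcStmt) {V : Site d → ℝ} {I : Set ℝ} (h : LocalizedIn V I) :
    LocIn V I := by
  refine ⟨ppc d V I h.1, fun E hE u hu => ?_⟩
  by_cases h0 : u = 0
  · refine ⟨1, 0, one_pos, fun x => ?_⟩
    rw [h0]
    simp
  obtain ⟨m, C, hm, hC⟩ := h.2 E hE u (eigenvector_iff.2 ⟨h0, hu⟩)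
  refine ⟨m, C, hm, fun x => ?_⟩
  rw [← norm_site]
  exact hC x

/-- no eigenvalue: continuous spectrum -/
theorem continuous_of (nzr : NzrStmt) (atm : AtmStmt) {V : Site d → ℝ} {b : ℝ} (hb : 0 < b)
    (hsp : InSpec V Set.univ) (hno : NoEv V {E | |E| < b}) :
    ContinuousIn (ham V) {E | |E| < b} := by
  constructor
  · obtain ⟨u, μ, h1, h2⟩ := nzr d V {E | |E| < b} 0 (b / 2)
      (fun E _ ε hε => hsp E (Set.mem_univ E) ε hε) (half_pos hb) (by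
        intro E hE
        obtain ⟨h1, h2⟩ := hE
        show |E| < b
        rw [abs_lt]
        exact ⟨by linarith only [h1, hb], by linarith only [h2, hb]⟩)
    exact ⟨u, μ, (smi d V u μ).2 h1, h2⟩
  · intro u μ hμ E hE
    by_contra hne
    obtain ⟨φ, h1, h2⟩ := atm d V u μ E ((smi d V u μ).1 hμ) hne
    apply h2
    rw [hno E hE φ h1, inner_zero_left]

theorem closure_eigenvalues {V : Site d → ℝ} (h : EvDense V Set.univ) :
    closure {E : ℝ | ∃ u : L2 d, IsEigenvector (ham V) E u} = Set.univ := by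
  refine Set.eq_univ_of_forall fun E => Metric.mem_closure_iff.2 fun r hr => ?_
  obtain ⟨E', h1, φ, h2, h3⟩ := h E (Set.mem_univ E) r hr
  refine ⟨E', ⟨φ, eigenvector_iff.2 ⟨h2, h3⟩⟩, ?_⟩
  rw [Real.dist_eq, abs_sub_comm]
  exact h1

/-- THE PHASE DIAGRAM (continuous spectrum), literal definitions -/
theorem asm (hf : Pool.Agent.ANE.FinStmt.{u}) (saj : SajStmt) (exm : ExmStmt) (unm : UnmStmt)
    (ppt : PptStmt) (ppc : PpcStmt) (atm : AtmStmt) (nzr : NzrStmt) (spr : SprStmt)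
    (d : ℕ) (hd : 3 ≤ d) :
    (∀ V : Site d → ℝ, IsSelfAdjoint (ham V) ∧
      ∀ u : L2 d, ∃! μ : Measure ℝ, IsSpectralMeasure (ham V) u μ) ∧
    ∃ (σc : ℝ) (E₀ : ℝ → ℝ), 0 < σc ∧
    (∀ σ : ℝ, σ ≠ 0 → Almost.{u} d σ fun V =>
      spectrumOf (ham V) = Set.range ((↑) : ℝ → ℂ)) ∧
    (∀ σ : ℝ, σc < |σ| → Almost.{u} d σ fun V =>
      LocalizedIn V Set.univ ∧
        closure {E : ℝ | ∃ u : L2 d, IsEigenvector (ham V) E u} = Set.univ) ∧
    (∀ σ : ℝ, σ ≠ 0 → 0 ≤ E₀ σ ∧ (Almost.{u} d σ fun V => LocalizedIn V {E | E₀ σ ≤ |E|}) ∧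
      ∀ e : ℝ, 0 ≤ e → e < E₀ σ → Almost.{u} d σ fun V => ¬ LocalizedIn V {E | e < |E|}) ∧
    (∀ s : ℝ, s < σc → ∃ σ : ℝ, s < |σ| ∧ |σ| ≤ σc ∧ 0 < E₀ σ) ∧
    (∀ a : ℝ, 0 < a → a < 2 * d → ∃ s : ℝ, 0 < s ∧ ∀ σ : ℝ, σ ≠ 0 → |σ| ≤ s →
      2 * d - a ≤ E₀ σ ∧ Almost.{u} d σ fun V =>
        ContinuousIn (ham V) {E | |E| < 2 * d - a} ∧
        ∀ (E : ℝ) (u : L2 d), |E| < 2 * d - a → ¬ IsEigenvector (ham V) E u) ∧
    ∃ c C : ℝ, 0 < c ∧ 0 < C ∧ ∀ σ : ℝ, σ ≠ 0 → |σ| ≤ c →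
      E₀ σ ≤ 2 * d + latticeGreen d * σ ^ 2 + C * |σ| ^ (2 + 1 / (24 * d : ℝ)) := by
  refine ⟨fun V => well_posed saj exm unm d V, ?_⟩
  obtain ⟨σc, E₀, h0, h1, h2, h3, h4, h5⟩ := Pool.Agent.EXT.H54.edge hf d hd
  refine ⟨σc, E₀, h0, fun σ hσ => ?_, fun σ hσ => ?_, fun σ hσ => ?_, h2, fun a ha had => ?_, ?_⟩
  · intro Ω _ P _ ξ hm hlaw hind
    filter_upwards [(h3 σ hσ).2.1 Ω P ξ hm hlaw hind] with ω hω
    exact spr d _ hω.2.1
  · intro Ω _ P _ ξ hm hlaw hind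
    filter_upwards [h1 σ hσ Ω P ξ hm hlaw hind] with ω hω
    exact ⟨localized_of ppt isOpen_univ (Set.subset_univ _) (by simp) hω.1,
      closure_eigenvalues hω.2.2⟩
  · obtain ⟨g1, g2, g3⟩ := h3 σ hσ
    refine ⟨g1, ?_, fun e he hlt => ?_⟩
    · intro Ω _ P _ ξ hm hlaw hind
      filter_upwards [g2 Ω P ξ hm hlaw hind] with ω hω
      refine localized_of ppt (O := {E : ℝ | E₀ σ < |E|}) (isOpen_lt continuous_const continuous_abs)
        (fun E (hE : E₀ σ < |E|) => hE.le) ?_ hω.1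
      refine Set.Countable.mono (s₂ := {E₀ σ, -E₀ σ}) ?_ (Set.to_countable _)
      rintro E ⟨h6, h7⟩
      have h6' : E₀ σ ≤ |E| := h6
      have h7' : ¬ E₀ σ < |E| := h7
      rcases (abs_eq g1).1 (le_antisymm (not_lt.1 h7') h6') with h8 | h8
      · exact Or.inl h8
      · exact Or.inr h8
    · intro Ω _ P _ ξ hm hlaw hind
      filter_upwards [g3 e he hlt Ω P ξ hm hlaw hind] with ω hω hcon
      exact hω (locIn_of ppc hcon)
  · obtain ⟨s, hs, g⟩ := h4 a ha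
    refine ⟨s, hs, fun σ hσ hσs => ⟨(g σ hσ hσs).1, ?_⟩⟩
    intro Ω _ P _ ξ hm hlaw hind
    filter_upwards [(g σ hσ hσs).2 Ω P ξ hm hlaw hind, (h3 σ hσ).2.1 Ω P ξ hm hlaw hind]
      with ω h6 h7
    refine ⟨continuous_of nzr atm (by linarith only [had]) h7.2.1 h6, fun E u hE hu => ?_⟩
    exact (eigenvector_iff.1 hu).1 (h6 E hE u (eigenvector_iff.1 hu).2)
  · rw [latticeGreen_eq]
    exact h5

end Pool.Agent.SPX.H54
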