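import Pool.Agent.Helper54_SPX.Asm
import Pool.Agent.Helper97_ACE.Defs

/-!
# SPX: the phase diagram with purely absolutely continuous spectrum at weak disorder
-/

set_option autoImplicit false

open MeasureTheory ProbabilityTheory Filter

open scoped InnerProductSpace ENNReal Topology ComplexConjugate

noncomputable section

namespace Pool.Agent.SPX.H54

open Pool.Agent.Anderson Pool.Agent.Loc Pool.Agent.Helper54.Bal Pool.Agent.LE.CH Pool.Agent.SPX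
open Pool.Agent.LE.CH.H93 (LocIn)
open Pool.Agent.EXT.H54 (InSpec NoEv EvDense)
open Pool.Agent.EXT.H54.Handin (latticeGreen latticeGreen_eq)

universe u

variable {d : ℕ}

/-- The spectrum of `A` in `I` is purely absolutely continuous and fills `I`: the restriction to `I` of
every spectral measure is absolutely continuous with respect to the Lebesgue measure, and the
Lebesgue measure on `I` is absolutely continuous with respect to some spectral measure. -/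
def PurelyACIn (A : L2 d →ₗ.[ℂ] L2 d) (I : Set ℝ) : Prop :=
  (∀ (u : L2 d) (μ : Measure ℝ), IsSpectralMeasure A u μ → μ.restrict I ≪ volume) ∧
  ∃ (u : L2 d) (μ : Measure ℝ), IsSpectralMeasure A u μ ∧ (volume : Measure ℝ).restrict I ≪ μ

/-- PURELY ABSOLUTELY CONTINUOUS SPECTRUM AT WEAK DISORDER -/
def AcsStmt : Prop :=
  ∀ (d : ℕ) (a : ℝ), 3 ≤ d → 0 < a → ∃ s : ℝ, 0 < s ∧ ∀ σ : ℝ, σ ≠ 0 → |σ| ≤ s →
    ∀ᵐ V ∂(PP d (gl σ)), Pool.Agent.ACE.ACIn V (-(2 * d - a)) (2 * d - a)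

theorem purelyAC_of {V : Site d → ℝ} {a b : ℝ} (h : Pool.Agent.ACE.ACIn V a b) :
    PurelyACIn (ham V) (Set.Ioo a b) := by
  obtain ⟨h1, h2, h3⟩ := h
  constructor
  · intro u μ hμ N hN
    rw [Measure.restrict_apply' measurableSet_Ioo]
    exact h2 u μ ((smi d V u μ).1 hμ) _ Set.inter_subset_right
      (measure_mono_null Set.inter_subset_left hN)
  · obtain ⟨m, hm⟩ := h1 (del 0)
    refine ⟨del 0, m, (smi d V _ m).2 hm, fun N hN => ?_⟩
    rw [Measure.restrict_apply' measurableSet_Ioo]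
    exact h3 0 m hm _ Set.inter_subset_right (measure_mono_null Set.inter_subset_left hN)

theorem ioo_eq (b : ℝ) : Set.Ioo (-b) b = {E : ℝ | |E| < b} := by
  ext E
  exact abs_lt.symm

/-- THE PHASE DIAGRAM (absolutely continuous spectrum), literal definitions -/
theorem asmAC (hf : Pool.Agent.ANE.FinStmt.{u}) (hac : AcsStmt) (saj : SajStmt) (exm : ExmStmt)
    (unm : UnmStmt) (ppt : PptStmt) (ppc : PpcStmt) (spr : SprStmt)
    (d : ℕ) (hd : 3 ≤ d) :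
    (∀ V : Site d → ℝ, IsSelfAdjoint (ham V) ∧
      ∀ u : L2 d, ∃! μ : Measure ℝ, IsSpectralMeasure (ham V) u μ) ∧
    ∃ (σc : ℝ) (E₀ : ℝ → ℝ), 0 < σc ∧
    (∀ σ : ℝ, σ ≠ 0 → Almost.{u} d σ fun V =>
      spectrumOf (ham V) = Set.range ((↑) : ℝ → ℂ)) ∧
    (∀ σ : ℝ, σc < |σ| → Almost.{u} d σ fun V =>
      LocalizedIn V Set.univ ∧
        closure {E : ℝ | ∃ u : L2 d, IsEigenvector (ham V) E u} = Set.univ) ∧
    (∀ σ : ℝ, σ ≠ 0 → 0 ≤ E₀ σ ∧ (Almost.{u} d σ fun V => LocalizedIn V {E | E₀ σ ≤ |E|}) ∧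
      ∀ e : ℝ, 0 ≤ e → e < E₀ σ → Almost.{u} d σ fun V => ¬ LocalizedIn V {E | e < |E|}) ∧
    (∀ s : ℝ, s < σc → ∃ σ : ℝ, s < |σ| ∧ |σ| ≤ σc ∧ 0 < E₀ σ) ∧
    (∀ a : ℝ, 0 < a → ∃ s : ℝ, 0 < s ∧ ∀ σ : ℝ, σ ≠ 0 → |σ| ≤ s →
      2 * d - a ≤ E₀ σ ∧ Almost.{u} d σ fun V =>
        PurelyACIn (ham V) {E | |E| < 2 * d - a} ∧
        ∀ (E : ℝ) (u : L2 d), |E| < 2 * d - a → ¬ IsEigenvector (ham V) E u) ∧
    ∃ c C : ℝ, 0 < c ∧ 0 < C ∧ ∀ σ : ℝ, σ ≠ 0 → |σ| ≤ c →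
      E₀ σ ≤ 2 * d + latticeGreen d * σ ^ 2 + C * |σ| ^ (2 + 1 / (24 * d : ℝ)) := by
  refine ⟨fun V => well_posed saj exm unm d V, ?_⟩
  obtain ⟨σc, E₀, h0, h1, h2, h3, h4, h5⟩ := Pool.Agent.EXT.H54.edge hf d hd
  refine ⟨σc, E₀, h0, fun σ hσ => ?_, fun σ hσ => ?_, fun σ hσ => ?_, h2, fun a ha => ?_, ?_⟩
  · intro Ω _ P _ ξ hm hlaw hind
    filter_upwards [(h3 σ hσ).2.1 Ω P ξ hm hlaw hind] with ω hω
    exact spr d _ hω.2.1
  · intro Ω _ P _ ξ hm hlaw hind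
    filter_upwards [h1 σ hσ Ω P ξ hm hlaw hind] with ω hω
    exact ⟨localized_of ppt isOpen_univ (Set.subset_univ _) (by simp) hω.1,
      closure_eigenvalues hω.2.2⟩
  · obtain ⟨g1, g2, g3⟩ := h3 σ hσ
    refine ⟨g1, ?_, fun e he hlt => ?_⟩
    · intro Ω _ P _ ξ hm hlaw hind
      filter_upwards [g2 Ω P ξ hm hlaw hind] with ω hω
      refine localized_of ppt (O := {E : ℝ | E₀ σ < |E|}) (isOpen_lt continuous_const continuous_abs)
        (fun E (hE : E₀ σ < |E|) => hE.le) ?_ hω.1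
      refine Set.Countable.mono (s₂ := {E₀ σ, -E₀ σ}) ?_ (Set.to_countable _)
      rintro E ⟨h6, h7⟩
      have h6' : E₀ σ ≤ |E| := h6
      have h7' : ¬ E₀ σ < |E| := h7
      rcases (abs_eq g1).1 (le_antisymm (not_lt.1 h7') h6') with h8 | h8
      · exact Or.inl h8
      · exact Or.inr h8
    · intro Ω _ P _ ξ hm hlaw hind
      filter_upwards [g3 e he hlt Ω P ξ hm hlaw hind] with ω hω hcon
      exact hω (locIn_of ppc hcon)
  · obtain ⟨s, hs, g⟩ := h4 a ha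
    obtain ⟨s', hs', g'⟩ := hac d a hd ha
    refine ⟨min s s', lt_min hs hs', fun σ hσ hσs => ?_⟩
    have hσ1 := hσs.trans (min_le_left s s')
    have hσ2 := hσs.trans (min_le_right s s')
    refine ⟨(g σ hσ hσ1).1, ?_⟩
    have g2 : Pool.Agent.EXT.H54.Almost.{u} d σ fun V =>
        Pool.Agent.ACE.ACIn V (-(2 * d - a)) (2 * d - a) :=
      Pool.Agent.EXT.H54.almost_of_PP (g' σ hσ hσ2)
    intro Ω _ P _ ξ hm hlaw hind
    filter_upwards [(g σ hσ hσ1).2 Ω P ξ hm hlaw hind, g2 Ω P ξ hm hlaw hind] with ω h6 h7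
    refine ⟨?_, fun E u hE hu => ?_⟩
    · rw [← ioo_eq]
      exact purelyAC_of h7
    · exact (eigenvector_iff.1 hu).1 (h6 E hE u (eigenvector_iff.1 hu).2)
  · rw [latticeGreen_eq]
    exact h5

end Pool.Agent.SPX.H54
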