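import Pool.Agent.Helper54_SPX.All
import Pool.Agent.Helper54_SPX.AsmAC

/-!
# SPX: the operator as a relation

`IsH V u w`: `u` is in the domain of `H = Δ + V` and `w = H u`. The same notions as in `SPX/Defs.lean`
(`ham V` is the `LinearPMap` with the graph `IsH V`), with less notation.
-/

set_option autoImplicit false

open MeasureTheory ProbabilityTheory Filter

open scoped InnerProductSpace ENNReal Topology ComplexConjugate

noncomputable section

namespace Pool.Agent.SPX.Gr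

open Pool.Agent.Anderson Pool.Agent.Loc Pool.Agent.Helper54.Bal Pool.Agent.SPX
open Pool.Agent.SPX.H54 (mem_domain_of ham_eq_of ham_apply smi dom eigenvector_iff norm_site)
open Pool.Agent.EXT.H54.Handin (latticeGreen)

universe u

variable {d : ℕ}

/-- `w = H u`: `u` is in the domain `{u ∈ ℓ²(ℤ^d) : Δ u + V u ∈ ℓ²(ℤ^d)}` of `H = Δ + V` and
`w = Δ u + V u`. -/
def IsH (V : Site d → ℝ) (u w : L2 d) : Prop :=
  ∀ x, w x = lap u x + (V x : ℂ) * u x

/-- `H` is self-adjoint: its domain is dense and `H* = H`, where `H* u = w` means that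
`⟨v, w⟩ = ⟨H v, u⟩` for all `v` in the domain of `H`. -/
def SelfAdjoint (V : Site d → ℝ) : Prop :=
  Dense {u : L2 d | ∃ w, IsH V u w} ∧
  ∀ u w : L2 d, (∀ v k : L2 d, IsH V v k → ⟪v, w⟫_ℂ = ⟪k, u⟫_ℂ) ↔ IsH V u w

/-- The spectrum of `H`: the set of all complex numbers `z` such that `H - z` is not a bijection of the
domain of `H` onto `ℓ²(ℤ^d)`. -/
def spectrumOf (V : Site d → ℝ) : Set ℂ :=
  {z | ¬ ∀ f : L2 d, ∃! u : L2 d, IsH V u (f + z • u)}

/-- The set of the eigenvalues of `H`. -/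
def eigenvalues (V : Site d → ℝ) : Set ℝ :=
  {E | ∃ u : L2 d, u ≠ 0 ∧ IsH V u ((E : ℂ) • u)}

/-- `μ` is the spectral measure of the vector `u`: `μ` is a finite measure on the line and
`⟨u, (H - z)⁻¹ u⟩ = ∫ (E - z)⁻¹ dμ(E)` for all `z` off the line; `v = (H - z)⁻¹ u` means
`H v = u + z v`. -/
def IsSpectralMeasure (V : Site d → ℝ) (u : L2 d) (μ : Measure ℝ) : Prop :=
  IsFiniteMeasure μ ∧ ∀ (z : ℂ) (v : L2 d), z.im ≠ 0 → IsH V v (u + z • v) →
    ⟪u, v⟫_ℂ = ∫ E : ℝ, ((E : ℂ) - z)⁻¹ ∂μ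

/-- The spectrum of `H` in the Borel set `I` is pure point: the restriction to `I` of every spectral
measure is carried by a countable set. -/
def PurePointIn (V : Site d → ℝ) (I : Set ℝ) : Prop :=
  ∀ (u : L2 d) (μ : Measure ℝ), IsSpectralMeasure V u μ →
    ∃ S : Set ℝ, S.Countable ∧ μ (I \ S) = 0

/-- The spectrum of `H` in the Borel set `I` is purely absolutely continuous and fills `I`: the
restriction to `I` of every spectral measure is absolutely continuous with respect to the Lebesgue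
measure, and the Lebesgue measure on `I` is absolutely continuous with respect to some spectral
measure. -/
def PurelyACIn (V : Site d → ℝ) (I : Set ℝ) : Prop :=
  (∀ (u : L2 d) (μ : Measure ℝ), IsSpectralMeasure V u μ → μ.restrict I ≪ volume) ∧
  ∃ (u : L2 d) (μ : Measure ℝ), IsSpectralMeasure V u μ ∧ (volume : Measure ℝ).restrict I ≪ μ

/-- `H` is exponentially localized in the Borel set `I`: the spectrum in `I` is pure point and every
eigenvector with an eigenvalue in `I` decays exponentially; `‖x‖` is the maximum of the `|x i|`. -/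
def LocalizedIn (V : Site d → ℝ) (I : Set ℝ) : Prop :=
  PurePointIn V I ∧ ∀ E ∈ I, ∀ u : L2 d, IsH V u ((E : ℂ) • u) →
    ∃ m C : ℝ, 0 < m ∧ ∀ x, ‖u x‖ ≤ C * Real.exp (-m * ‖x‖)

theorem isH_iff {V : Site d → ℝ} {u w : L2 d} :
    IsH V u w ↔ ∃ h : u ∈ (ham V).domain, ham V ⟨u, h⟩ = w := by
  constructor
  · intro h
    exact ⟨mem_domain_of h, ham_eq_of h _⟩
  · rintro ⟨h, rfl⟩ x
    rw [ham_apply]

theorem isH_G {V : Site d → ℝ} {z : ℂ} (hz : z.im ≠ 0) (f : L2 d) :
    IsH V (G V z f) (f + z • G V z f) := by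
  obtain ⟨h1, h2⟩ := (dom d V z hz).1 f
  exact isH_iff.2 ⟨h1, h2⟩

theorem isH_unique {V : Site d → ℝ} {z : ℂ} (hz : z.im ≠ 0) {f u : L2 d}
    (h : IsH V u (f + z • u)) : u = G V z f := by
  apply G_unique hz
  intro x
  have h1 := h x
  rw [lp.coeFn_add, Pi.add_apply, lp.coeFn_smul, Pi.smul_apply, smul_eq_mul] at h1
  linear_combination -h1

theorem selfAdjoint (V : Site d → ℝ) : SelfAdjoint V := by
  have hI : (Complex.I).im ≠ 0 := by simp
  have hI' : (conj Complex.I).im ≠ 0 := conj_im_ne hI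
  constructor
  · refine Dense.mono ?_ ((isRes_G V).dense_range hI)
    rintro _ ⟨f, rfl⟩
    exact ⟨_, isH_G hI f⟩
  · intro u w
    constructor
    · intro h
      have hu : u = G V Complex.I (w - Complex.I • u) := by
        refine ext_inner_left ℂ fun g => ?_
        have h1 := h _ _ (isH_G hI' g)
        rw [inner_add_left, inner_smul_left, Complex.conj_conj] at h1
        have h2 := (isRes_G V).adj (conj Complex.I) hI' g (w - Complex.I • u)
        rw [Complex.conj_conj, inner_sub_right, inner_smul_right] at h2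
        rw [← h2, h1]
        ring
      have h3 := isH_G (V := V) hI (w - Complex.I • u)
      rw [← hu, sub_add_cancel] at h3
      exact h3
    · intro h v k hk
      have hu : u = G V Complex.I (w - Complex.I • u) := by
        apply isH_unique hI
        rw [sub_add_cancel]
        exact h
      have hv : v = G V (conj Complex.I) (k - conj Complex.I • v) := by
        apply isH_unique hI'
        rw [sub_add_cancel]
        exact hk
      have h2 := (isRes_G V).adj (conj Complex.I) hI' (k - conj Complex.I • v)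
        (w - Complex.I • u)
      rw [Complex.conj_conj, ← hu, ← hv, inner_sub_left, inner_sub_right, inner_smul_left,
        inner_smul_right, Complex.conj_conj] at h2
      linear_combination h2

theorem spectrum_eq (V : Site d → ℝ) : spectrumOf V = SPX.spectrumOf (ham V) := by
  ext z
  refine not_congr ?_
  rw [Function.bijective_iff_existsUnique]
  refine forall_congr' fun f => ?_
  constructor
  · rintro ⟨u, hu, huu⟩
    obtain ⟨h1, h2⟩ := isH_iff.1 hu
    refine ⟨⟨u, h1⟩, ?_, fun v hv => ?_⟩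
    · show ham V ⟨u, h1⟩ - z • u = f
      rw [h2, add_sub_cancel_right]
    · apply Subtype.ext
      apply huu
      refine isH_iff.2 ⟨v.2, ?_⟩
      have hv' : ham V v - z • (v : L2 d) = f := hv
      rw [← hv', sub_add_cancel]
  · rintro ⟨u, hu, huu⟩
    have hu' : ham V u - z • (u : L2 d) = f := hu
    refine ⟨u, ?_, fun v hv => ?_⟩
    · refine isH_iff.2 ⟨u.2, ?_⟩
      rw [← hu', sub_add_cancel]
    · obtain ⟨h1, h2⟩ := isH_iff.1 hv
      have h3 := huu ⟨v, h1⟩ (by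
        show ham V ⟨v, h1⟩ - z • v = f
        rw [h2, add_sub_cancel_right])
      exact congrArg Subtype.val h3

theorem eigen_iff {V : Site d → ℝ} {E : ℝ} {u : L2 d} :
    (u ≠ 0 ∧ IsH V u ((E : ℂ) • u)) ↔ IsEigenvector (ham V) E u := by
  unfold IsEigenvector
  rw [isH_iff]

theorem eigenvalues_eq (V : Site d → ℝ) :
    eigenvalues V = {E : ℝ | ∃ u : L2 d, IsEigenvector (ham V) E u} := by
  ext E
  exact exists_congr fun u => eigen_iff

theorem spectral_iff {V : Site d → ℝ} {u : L2 d} {μ : Measure ℝ} :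
    IsSpectralMeasure V u μ ↔ SPX.IsSpectralMeasure (ham V) u μ := by
  unfold IsSpectralMeasure SPX.IsSpectralMeasure
  refine and_congr Iff.rfl (forall_congr' fun z => ?_)
  constructor
  · intro h v hz hv
    refine h v hz (isH_iff.2 ⟨v.2, ?_⟩)
    rw [← hv, sub_add_cancel]
  · intro h v hz hv
    obtain ⟨h1, h2⟩ := isH_iff.1 hv
    refine h ⟨v, h1⟩ hz ?_
    rw [h2, add_sub_cancel_right]

theorem purePoint_iff {V : Site d → ℝ} {I : Set ℝ} :
    PurePointIn V I ↔ SPX.PurePointIn (ham V) I := by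
  unfold PurePointIn SPX.PurePointIn
  simp only [spectral_iff]

theorem purelyAC_iff {V : Site d → ℝ} {I : Set ℝ} :
    PurelyACIn V I ↔ SPX.H54.PurelyACIn (ham V) I := by
  unfold PurelyACIn SPX.H54.PurelyACIn
  simp only [spectral_iff]

theorem localized_iff {V : Site d → ℝ} {I : Set ℝ} :
    LocalizedIn V I ↔ SPX.LocalizedIn V I := by
  unfold LocalizedIn SPX.LocalizedIn
  rw [purePoint_iff]
  refine and_congr Iff.rfl (forall₂_congr fun E hE => forall_congr' fun u => ?_)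
  constructor
  · intro h hu
    exact h (eigen_iff.2 hu).2
  · intro h hu
    by_cases h0 : u = 0
    · refine ⟨1, 0, one_pos, fun x => ?_⟩
      rw [h0]
      simp
    · exact h (eigen_iff.1 ⟨h0, hu⟩)

theorem existsUnique_spectral (V : Site d → ℝ) (u : L2 d) :
    ∃! μ : Measure ℝ, IsSpectralMeasure V u μ := by
  obtain ⟨μ, h1, h2⟩ := (SPX.H54.well_posed SPX.H54.sajT SPX.H54.exmT SPX.H54.unmT d V).2 u
  exact ⟨μ, spectral_iff.2 h1, fun ν hν => h2 ν (spectral_iff.1 hν)⟩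

/-- THE PHASE DIAGRAM -/
theorem main (hf : Pool.Agent.ANE.FinStmt.{u}) (hac : SPX.H54.AcsStmt) (d : ℕ) (hd : 3 ≤ d) :
    (∀ V : Site d → ℝ, SelfAdjoint V ∧ ∀ u : L2 d, ∃! μ : Measure ℝ, IsSpectralMeasure V u μ) ∧
    ∃ (σc : ℝ) (E₀ : ℝ → ℝ), 0 < σc ∧
    (∀ σ : ℝ, σ ≠ 0 → Almost.{u} d σ fun V => spectrumOf V = Set.range ((↑) : ℝ → ℂ)) ∧
    (∀ σ : ℝ, σc < |σ| → Almost.{u} d σ fun V =>
      LocalizedIn V Set.univ ∧ closure (eigenvalues V) = Set.univ) ∧
    (∀ σ : ℝ, σ ≠ 0 → 0 ≤ E₀ σ ∧ (Almost.{u} d σ fun V => LocalizedIn V {E | E₀ σ ≤ |E|}) ∧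
      ∀ e : ℝ, 0 ≤ e → e < E₀ σ → Almost.{u} d σ fun V => ¬ LocalizedIn V {E | e < |E|}) ∧
    (∀ s : ℝ, s < σc → ∃ σ : ℝ, s < |σ| ∧ |σ| ≤ σc ∧ 0 < E₀ σ) ∧
    (∀ a : ℝ, 0 < a → ∃ s : ℝ, 0 < s ∧ ∀ σ : ℝ, σ ≠ 0 → |σ| ≤ s →
      2 * d - a ≤ E₀ σ ∧ Almost.{u} d σ fun V =>
        PurelyACIn V {E | |E| < 2 * d - a} ∧ ∀ E ∈ eigenvalues V, 2 * d - a ≤ |E|) ∧
    ∃ c C : ℝ, 0 < c ∧ 0 < C ∧ ∀ σ : ℝ, σ ≠ 0 → |σ| ≤ c →
      E₀ σ ≤ 2 * d + latticeGreen d * σ ^ 2 + C * |σ| ^ (2 + 1 / (24 * d : ℝ)) := by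
  obtain ⟨h1, σc, E₀, h2, h3, h4, h5, h6, h7, h8⟩ :=
    SPX.H54.asmAC.{u} hf hac SPX.H54.sajT SPX.H54.exmT SPX.H54.unmT SPX.H54.pptT SPX.H54.ppcT
      SPX.H54.sprT d hd
  simp only [spectrum_eq, localized_iff, eigenvalues_eq, purelyAC_iff]
  refine ⟨fun V => ⟨selfAdjoint V, existsUnique_spectral V⟩, σc, E₀, h2, h3, h4, h5, h6,
    fun a ha => ?_, h8⟩
  obtain ⟨s, hs, g⟩ := h7 a ha
  refine ⟨s, hs, fun σ hσ hσs => ⟨(g σ hσ hσs).1, ?_⟩⟩
  intro Ω _ P _ ξ hm hlaw hind
  filter_upwards [(g σ hσ hσs).2 Ω P ξ hm hlaw hind] with ω h9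
  refine ⟨h9.1, fun E hE => ?_⟩
  obtain ⟨v, hv⟩ := hE
  by_contra hlt
  exact h9.2 E v (not_le.1 hlt) hv

end Pool.Agent.SPX.Gr
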