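import Pool.Agent.Helper54_SPX.AsmAC

/-!
# MP_1906c1_mp: extended states at weak disorder, the mobility edge

For `H = Δ + σ ξ` on `ℤ^d`, `d ≥ 3`, `ξ` iid standard Gaussian, there are a critical coupling
`0 < σc < ∞` and a mobility edge `E₀(σ) ≥ 0`, `σ ≠ 0`, such that, almost surely (the spectrum is the
whole line):

* (1) if `|σ| > σc`, the spectrum is pure point, the eigenvalues are dense and all the eigenfunctions
  decay exponentially;
* (2a) for every `σ ≠ 0` there is exponential localization in `|E| ≥ E₀(σ)`, and `E₀(σ)` is optimal: for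
  `0 ≤ e < E₀(σ)` there is no exponential localization in `|E| > e`. The number `σc` is optimal too:
  arbitrarily close to it, or at it, there are `|σ| ≤ σc` with `E₀(σ) > 0`, no localization on the line;
* (2b) at weak disorder there are extended states: for each `a > 0` there is `s > 0` such that for
  `0 < |σ| ≤ s` the spectrum in `|E| < 2 d - a` is purely absolutely continuous (it fills the interval,
  there is no eigenvalue), and `2 d - a ≤ E₀(σ) ≤ 2 d + G σ² + C |σ|^(2 + 1 / (24 d))`,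
  `G = (2 d - Δ)⁻¹(0, 0)`.
-/

set_option autoImplicit false

open MeasureTheory ProbabilityTheory

open scoped ENNReal InnerProductSpace

noncomputable section

namespace Pool.Agent.SPX.H54.HandinAC

open Pool.Agent.Anderson

universe u

variable {d : ℕ}

theorem mem_add {V : Site d → ℝ} {u v : L2 d}
    (hu : Memℓp (fun x => lap u x + (V x : ℂ) * u x) 2)
    (hv : Memℓp (fun x => lap v x + (V x : ℂ) * v x) 2) :
    Memℓp (fun x => lap (u + v : L2 d) x + (V x : ℂ) * (u + v : L2 d) x) 2 := by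
  have h : (fun x => lap (u + v : L2 d) x + (V x : ℂ) * (u + v : L2 d) x) =
      (fun x => lap u x + (V x : ℂ) * u x) + fun x => lap v x + (V x : ℂ) * v x := by
    funext x
    simp only [lp.coeFn_add, Pool.Agent.SPX.lap_add', Pi.add_apply]
    ring
  rw [h]
  exact Memℓp.add hu hv

theorem mem_zero {V : Site d → ℝ} :
    Memℓp (fun x => lap (0 : L2 d) x + (V x : ℂ) * (0 : L2 d) x) 2 := by
  have h : (fun x => lap (0 : L2 d) x + (V x : ℂ) * (0 : L2 d) x) = 0 := by
    funext x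
    simp [lap]
  rw [h]
  exact zero_memℓp

theorem mem_smul {V : Site d → ℝ} (c : ℂ) {u : L2 d}
    (hu : Memℓp (fun x => lap u x + (V x : ℂ) * u x) 2) :
    Memℓp (fun x => lap (c • u : L2 d) x + (V x : ℂ) * (c • u : L2 d) x) 2 := by
  have h : (fun x => lap (c • u : L2 d) x + (V x : ℂ) * (c • u : L2 d) x) =
      c • fun x => lap u x + (V x : ℂ) * u x := by
    funext x
    simp only [lp.coeFn_smul, Pool.Agent.SPX.lap_smul', Pi.smul_apply, smul_eq_mul]
    ring
  rw [h]
  exact Memℓp.const_smul hu c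

/-- The domain of `H = Δ + V`: all `u ∈ ℓ²(ℤ^d)` with `Δ u + V u ∈ ℓ²(ℤ^d)`. -/
def dom (V : Site d → ℝ) : Submodule ℂ (L2 d) where
  carrier := {u | Memℓp (fun x => lap u x + (V x : ℂ) * u x) 2}
  add_mem' := mem_add
  zero_mem' := mem_zero
  smul_mem' := fun c _ hu => mem_smul c hu

/-- The values of `H`: `(H u)(x) = (Δ u)(x) + V(x) u(x)`. -/
def app (V : Site d → ℝ) (u : dom V) : L2 d :=
  ⟨fun x => lap (u : L2 d) x + (V x : ℂ) * (u : L2 d) x, u.2⟩

theorem app_add (V : Site d → ℝ) (u v : dom V) : app V (u + v) = app V u + app V v := by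
  ext x
  show lap ((u + v : dom V) : L2 d) x + (V x : ℂ) * ((u + v : dom V) : L2 d) x =
    (app V u + app V v : L2 d) x
  simp only [Submodule.coe_add, lp.coeFn_add, Pool.Agent.SPX.lap_add', Pi.add_apply, app]
  ring

theorem app_smul (V : Site d → ℝ) (c : ℂ) (u : dom V) : app V (c • u) = c • app V u := by
  ext x
  show lap ((c • u : dom V) : L2 d) x + (V x : ℂ) * ((c • u : dom V) : L2 d) x =
    (c • app V u : L2 d) x
  simp only [Submodule.coe_smul, lp.coeFn_smul, Pool.Agent.SPX.lap_smul', Pi.smul_apply,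
    smul_eq_mul, app]
  ring

/-- The Hamiltonian `H = Δ + V`, an unbounded operator on `ℓ²(ℤ^d)` with the domain `dom V`. -/
def ham (V : Site d → ℝ) : L2 d →ₗ.[ℂ] L2 d where
  domain := dom V
  toFun :=
    { toFun := app V
      map_add' := app_add V
      map_smul' := app_smul V }

/-- The spectrum of the (unbounded) operator `A`: the set of all complex numbers `z` such that `A - z`
is not a bijection of the domain of `A` onto `ℓ²(ℤ^d)` (for a self-adjoint `A` the inverse of a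
bijective `A - z` is bounded). -/
def spectrumOf (A : L2 d →ₗ.[ℂ] L2 d) : Set ℂ :=
  {z | ¬ Function.Bijective fun u : A.domain => A u - z • (u : L2 d)}

/-- `u` is an eigenvector of `A` with the eigenvalue `E`. -/
def IsEigenvector (A : L2 d →ₗ.[ℂ] L2 d) (E : ℝ) (u : L2 d) : Prop :=
  u ≠ 0 ∧ ∃ h : u ∈ A.domain, A ⟨u, h⟩ = (E : ℂ) • u

/-- The set of the eigenvalues of `A`. -/
def eigenvalues (A : L2 d →ₗ.[ℂ] L2 d) : Set ℝ :=
  {E | ∃ u : L2 d, IsEigenvector A E u}

/-- `μ` is the spectral measure of the vector `u` for the self-adjoint operator `A`: `μ` is a finite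
measure on the line and `⟨u, (A - z)⁻¹ u⟩ = ∫ (E - z)⁻¹ dμ(E)` for all `z` off the line. -/
def IsSpectralMeasure (A : L2 d →ₗ.[ℂ] L2 d) (u : L2 d) (μ : Measure ℝ) : Prop :=
  IsFiniteMeasure μ ∧ ∀ (z : ℂ) (v : A.domain), z.im ≠ 0 → A v - z • (v : L2 d) = u →
    ⟪u, (v : L2 d)⟫_ℂ = ∫ E : ℝ, ((E : ℂ) - z)⁻¹ ∂μ

/-- The spectrum of `A` in `I` is pure point: the restriction to `I` of every spectral measure is
carried by a countable set. -/
def PurePointIn (A : L2 d →ₗ.[ℂ] L2 d) (I : Set ℝ) : Prop :=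
  ∀ (u : L2 d) (μ : Measure ℝ), IsSpectralMeasure A u μ →
    ∃ S : Set ℝ, S.Countable ∧ μ (I \ S) = 0

/-- The spectrum of `A` in `I` is purely absolutely continuous and fills `I`: the restriction to `I` of
every spectral measure is absolutely continuous with respect to the Lebesgue measure, and the
Lebesgue measure on `I` is absolutely continuous with respect to some spectral measure. -/
def PurelyACIn (A : L2 d →ₗ.[ℂ] L2 d) (I : Set ℝ) : Prop :=
  (∀ (u : L2 d) (μ : Measure ℝ), IsSpectralMeasure A u μ → μ.restrict I ≪ volume) ∧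
  ∃ (u : L2 d) (μ : Measure ℝ), IsSpectralMeasure A u μ ∧ (volume : Measure ℝ).restrict I ≪ μ

/-- `H = Δ + V` is exponentially localized in `I`: the spectrum in `I` is pure point and every
eigenvector with an eigenvalue in `I` decays exponentially; `‖x‖` is the maximum of the `|x i|`. -/
def LocalizedIn (V : Site d → ℝ) (I : Set ℝ) : Prop :=
  PurePointIn (ham V) I ∧ ∀ E ∈ I, ∀ u : L2 d, IsEigenvector (ham V) E u →
    ∃ m C : ℝ, 0 < m ∧ ∀ x, ‖u x‖ ≤ C * Real.exp (-m * ‖x‖)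

/-- Almost surely `p V` holds for the potential `V = σ ξ`, `ξ(y)`, `y ∈ ℤ^d`, independent standard
Gaussians (on any probability space). -/
def Almost.{v} (d : ℕ) (σ : ℝ) (p : (Site d → ℝ) → Prop) : Prop :=
  ∀ (Ω : Type v) [MeasurableSpace Ω] (P : Measure Ω) [IsProbabilityMeasure P]
    (ξ : Site d → Ω → ℝ), (∀ y, Measurable (ξ y)) → (∀ y, P.map (ξ y) = gaussianReal 0 1) →
    iIndepFun ξ P → ∀ᵐ ω ∂P, p fun x => σ * ξ x ω

/-- The number of nearest neighbour walks on `ℤ^d` with `n` steps from `0` to `x`. -/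
def walks : ℕ → Site d → ℕ
  | 0, x => if x = 0 then 1 else 0
  | n + 1, x => ∑ i : Fin d, (walks n (x + Pi.single i 1) + walks n (x - Pi.single i 1))

/-- The Green function of the lattice, `(2 d - Δ)⁻¹(0, 0) = ∑ₙ walks n 0 / (2 d)^(n+1)`. -/
def latticeGreen (d : ℕ) : ℝ := ∑' n : ℕ, (walks n (0 : Site d) : ℝ) / (2 * d) ^ (n + 1)

theorem walks_eq : ∀ (n : ℕ) (x : Site d), walks n x = Pool.Agent.Loc.walks n x
  | 0, _ => rfl
  | n + 1, x => by
    unfold walks Pool.Agent.Loc.walks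
    exact Finset.sum_congr rfl fun i _ => by rw [walks_eq n, walks_eq n]

theorem latticeGreen_eq (d : ℕ) :
    latticeGreen d = Pool.Agent.EXT.H54.Handin.latticeGreen d := by
  rw [Pool.Agent.EXT.H54.Handin.latticeGreen_eq]
  unfold latticeGreen Pool.Agent.Loc.watson
  exact tsum_congr fun n => by rw [walks_eq]

/-- Let `d ≥ 3`. For every potential `V : ℤ^d → ℝ` the operator `H = Δ + V` is self-adjoint and every
vector has exactly one spectral measure. For `V = σ ξ`, with `ξ(y)`, `y ∈ ℤ^d`, independent standard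
Gaussians, there are `σc > 0` and a function `E₀` such that:

* for every `σ ≠ 0`, almost surely, the spectrum of `H` is the whole line;
* (1) if `|σ| > σc`, almost surely, `H` is exponentially localized at all energies and its eigenvalues
  are dense in the line;
* (2a) for every `σ ≠ 0`: `E₀(σ) ≥ 0`, almost surely `H` is exponentially localized in
  `|E| ≥ E₀(σ)`, and for `0 ≤ e < E₀(σ)`, almost surely, `H` is not exponentially localized in
  `|E| > e`; and for every `s < σc` there is `σ` with `s < |σ| ≤ σc` and `E₀(σ) > 0`;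
* (2b) for every `a > 0` there is `s > 0` such that for `0 < |σ| ≤ s`: `2 d - a ≤ E₀(σ)`, and almost
  surely the spectrum of `H` in `|E| < 2 d - a` is purely absolutely continuous, without eigenvalues;
* there are `c, C > 0` such that `E₀(σ) ≤ 2 d + G σ² + C |σ|^(2 + 1 / (24 d))` for `0 < |σ| ≤ c`,
  `G = (2 d - Δ)⁻¹(0, 0)`. -/
theorem result_of (hf : Pool.Agent.ANE.FinStmt.{u}) (hac : AcsStmt) (saj : SajStmt) (exm : ExmStmt)
    (unm : UnmStmt) (ppt : PptStmt) (ppc : PpcStmt) (spr : SprStmt) (d : ℕ) (hd : 3 ≤ d) :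
    (∀ V : Site d → ℝ, IsSelfAdjoint (ham V) ∧
      ∀ u : L2 d, ∃! μ : Measure ℝ, IsSpectralMeasure (ham V) u μ) ∧
    ∃ (σc : ℝ) (E₀ : ℝ → ℝ), 0 < σc ∧
    (∀ σ : ℝ, σ ≠ 0 → Almost.{u} d σ fun V =>
      spectrumOf (ham V) = Set.range ((↑) : ℝ → ℂ)) ∧
    (∀ σ : ℝ, σc < |σ| → Almost.{u} d σ fun V =>
      LocalizedIn V Set.univ ∧ closure (eigenvalues (ham V)) = Set.univ) ∧
    (∀ σ : ℝ, σ ≠ 0 → 0 ≤ E₀ σ ∧ (Almost.{u} d σ fun V => LocalizedIn V {E | E₀ σ ≤ |E|}) ∧
      ∀ e : ℝ, 0 ≤ e → e < E₀ σ → Almost.{u} d σ fun V => ¬ LocalizedIn V {E | e < |E|}) ∧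
    (∀ s : ℝ, s < σc → ∃ σ : ℝ, s < |σ| ∧ |σ| ≤ σc ∧ 0 < E₀ σ) ∧
    (∀ a : ℝ, 0 < a → ∃ s : ℝ, 0 < s ∧ ∀ σ : ℝ, σ ≠ 0 → |σ| ≤ s →
      2 * d - a ≤ E₀ σ ∧ Almost.{u} d σ fun V =>
        PurelyACIn (ham V) {E | |E| < 2 * d - a} ∧
        ∀ E ∈ eigenvalues (ham V), 2 * d - a ≤ |E|) ∧
    ∃ c C : ℝ, 0 < c ∧ 0 < C ∧ ∀ σ : ℝ, σ ≠ 0 → |σ| ≤ c →
      E₀ σ ≤ 2 * d + latticeGreen d * σ ^ 2 + C * |σ| ^ (2 + 1 / (24 * d : ℝ)) := by
  obtain ⟨h1, σc, E₀, h2, h3, h4, h5, h6, h7, h8⟩ :=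
    Pool.Agent.SPX.H54.asmAC hf hac saj exm unm ppt ppc spr d hd
  refine ⟨h1, σc, E₀, h2, h3, h4, h5, h6, fun a ha => ?_, ?_⟩
  · obtain ⟨s, hs, g⟩ := h7 a ha
    refine ⟨s, hs, fun σ hσ hσs => ⟨(g σ hσ hσs).1, ?_⟩⟩
    intro Ω _ P _ ξ hm hlaw hind
    filter_upwards [(g σ hσ hσs).2 Ω P ξ hm hlaw hind] with ω h9
    refine ⟨h9.1, fun E hE => ?_⟩
    obtain ⟨v, hv⟩ := hE
    by_contra hlt
    exact h9.2 E v (not_le.1 hlt) hv
  · rw [latticeGreen_eq]
    exact h8

end Pool.Agent.SPX.H54.HandinAC
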