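import Pool.Agent.Helper54_SPX.Dom
import Pool.Agent.Helper93_LCH.All

/-!
# SPX, row PPC: pure point spectrum implies complete eigenfunctions
-/

set_option autoImplicit false

open MeasureTheory ProbabilityTheory Filter

open scoped InnerProductSpace ENNReal Topology ComplexConjugate

noncomputable section

namespace Pool.Agent.SPX.H54

open Pool.Agent.Anderson Pool.Agent.Loc Pool.Agent.Helper54.Bal Pool.Agent.LE.CH Pool.Agent.SPX

variable {d : ℕ}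

/-- little mass in `[a - r, a + r]` as `η → 0`: the lower bound for `H - a` -/
theorem wtq_limit {V : Site d → ℝ} {a r : ℝ} {u w : L2 d} (hr : 0 ≤ r)
    (hw : ∀ x, w x = lap u x + (V x : ℂ) * u x)
    (h : Tendsto (fun η : ℝ => wt V (Set.Icc (a - r) (a + r)) η u) (𝓝[>] 0) (𝓝 0)) :
    r * ‖u‖ ≤ ‖w - (a : ℂ) • u‖ := by
  have h1 : ∀ᶠ η in 𝓝[>] (0 : ℝ), ENNReal.ofReal (r ^ 2 * ‖u‖ ^ 2) ≤
      ENNReal.ofReal (‖w - (a : ℂ) • u‖ ^ 2 + (r ^ 2 + 3 * r) * √η * ‖u‖ ^ 2) +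
        ENNReal.ofReal (r ^ 2) * wt V (Set.Icc (a - r) (a + r)) η u := by
    have h2 : Set.Ioc (0 : ℝ) 1 ∈ 𝓝[>] (0 : ℝ) := Ioc_mem_nhdsGT one_pos
    filter_upwards [h2] with η hη
    exact H93.wtqT d V a r η u w hr hη.1 hη.2 hw
  have h3 : Tendsto (fun η : ℝ =>
      ENNReal.ofReal (‖w - (a : ℂ) • u‖ ^ 2 + (r ^ 2 + 3 * r) * √η * ‖u‖ ^ 2) +
        ENNReal.ofReal (r ^ 2) * wt V (Set.Icc (a - r) (a + r)) η u) (𝓝[>] 0)
      (𝓝 (ENNReal.ofReal (‖w - (a : ℂ) • u‖ ^ 2 + (r ^ 2 + 3 * r) * √0 * ‖u‖ ^ 2) +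
        ENNReal.ofReal (r ^ 2) * 0)) := by
    refine Tendsto.add ?_ (ENNReal.Tendsto.const_mul h (Or.inr ENNReal.ofReal_ne_top))
    refine ENNReal.tendsto_ofReal ?_
    have hc : Continuous fun η : ℝ =>
        ‖w - (a : ℂ) • u‖ ^ 2 + (r ^ 2 + 3 * r) * √η * ‖u‖ ^ 2 := by fun_prop
    exact (hc.tendsto 0).mono_left nhdsWithin_le_nhds
  have h4 := ge_of_tendsto h3 h1
  rw [Real.sqrt_zero, mul_zero, zero_mul, mul_zero, add_zero, add_zero,
    ENNReal.ofReal_le_ofReal_iff (by positivity), ← mul_pow] at h4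
  exact (pow_le_pow_iff_left₀ (mul_nonneg hr (norm_nonneg _)) (norm_nonneg _) two_ne_zero).1 h4

theorem ppc (hex : ExmStmt) (hatm : AtmStmt) (hop : OpnStmt) : PpcStmt := by
  intro d V I hpp a r har u w hw hO
  rcases lt_or_ge r 0 with hr | hr
  · have h1 : r * ‖u‖ ≤ 0 := mul_nonpos_of_nonpos_of_nonneg hr.le (norm_nonneg _)
    exact h1.trans (norm_nonneg _)
  obtain ⟨μ, hμ⟩ := hex d V u
  obtain ⟨S, hS, hS'⟩ := hpp u μ ((smi d V u μ).2 hμ)
  have hJ : μ (Set.Icc (a - r) (a + r)) = 0 := by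
    have hat : ∀ E ∈ Set.Icc (a - r) (a + r), μ {E} = 0 := by
      intro E hE
      by_contra hne
      obtain ⟨φ, h1, h2⟩ := hatm d V u μ E hμ hne
      exact h2 (hO E φ hE h1)
    have h1 : μ (⋃ E ∈ S ∩ Set.Icc (a - r) (a + r), {E}) = 0 :=
      (measure_biUnion_null_iff (hS.mono Set.inter_subset_left)).2 fun E hE => hat E hE.2
    refine measure_mono_null (t := (I \ S) ∪ ⋃ E ∈ S ∩ Set.Icc (a - r) (a + r), {E}) ?_
      (measure_union_null hS' h1)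
    intro E hE
    by_cases hES : E ∈ S
    · right
      simp only [Set.mem_iUnion]
      exact ⟨E, ⟨hES, hE⟩, rfl⟩
    · exact Or.inl ⟨har hE, hES⟩
  exact wtq_limit hr hw ((hop d V u μ _ hμ).2 isClosed_Icc hJ)

end Pool.Agent.SPX.H54
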