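import Pool.Agent.Helper54_SPX.Ppc

/-!
# SPX, row PPT: complete eigenfunctions imply pure point spectrum
-/

set_option autoImplicit false

open MeasureTheory ProbabilityTheory Filter

open scoped InnerProductSpace ENNReal Topology ComplexConjugate

noncomputable section

namespace Pool.Agent.SPX.H54

open Pool.Agent.Anderson Pool.Agent.Loc Pool.Agent.Helper54.Bal Pool.Agent.LE.CH Pool.Agent.SPX

variable {d : ℕ}

/-- the spectral measure of `u` is carried by the set `S` -/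
def Carried (V : Site d → ℝ) (u : L2 d) (S : Set ℝ) : Prop :=
  ∀ μ : Measure ℝ, SpecM V u μ → μ Sᶜ = 0

theorem Carried.mono {V : Site d → ℝ} {u : L2 d} {S T : Set ℝ} (h : Carried V u S)
    (hST : S ⊆ T) : Carried V u T :=
  fun μ hμ => measure_mono_null (Set.compl_subset_compl.2 hST) (h μ hμ)

/-- finite combinations of eigenfunctions -/
theorem carried_span (hex : ExmStmt) (hpar : ParStmt) {V : Site d → ℝ} {m : L2 d}
    (hm : m ∈ Submodule.span ℂ {φ : L2 d | ∃ E₀ : ℝ, IsEigen V E₀ φ}) :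
    ∃ S : Set ℝ, S.Countable ∧ Carried V m S := by
  induction hm using Submodule.span_induction with
  | mem φ hφ =>
    obtain ⟨E₀, h1⟩ := hφ
    exact ⟨{E₀}, Set.countable_singleton E₀, fun μ hμ => (hpar d V φ μ hμ).2.2.1 E₀ h1⟩
  | zero =>
    refine ⟨∅, Set.countable_empty, fun μ hμ => ?_⟩
    have h1 := (hpar d V 0 μ hμ).2.2.2
    rw [norm_zero, zero_pow two_ne_zero, ENNReal.ofReal_zero] at h1
    exact measure_mono_null (Set.subset_univ _) (le_antisymm h1 zero_le)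
  | add x y _ _ hx hy =>
    obtain ⟨S, hS, hSx⟩ := hx
    obtain ⟨T, hT, hTy⟩ := hy
    refine ⟨S ∪ T, hS.union hT, fun ρ hρ => ?_⟩
    obtain ⟨μ, hμ⟩ := hex d V x
    obtain ⟨ν, hν⟩ := hex d V y
    have h1 := (hpar d V x μ hμ).1 y ν ρ (S ∪ T)ᶜ hν hρ
    rw [hSx.mono Set.subset_union_left μ hμ, hTy.mono Set.subset_union_right ν hν, mul_zero,
      add_zero] at h1
    exact le_antisymm h1 zero_le
  | smul c x _ hx =>
    obtain ⟨S, hS, hSx⟩ := hx
    refine ⟨S, hS, fun ρ hρ => ?_⟩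
    obtain ⟨μ, hμ⟩ := hex d V x
    rw [(hpar d V x μ hμ).2.1 c ρ hρ, Measure.smul_apply, hSx μ hμ, smul_zero]

/-- limits of finite combinations of eigenfunctions -/
theorem carried_closure (hex : ExmStmt) (hpar : ParStmt) {V : Site d → ℝ} {m : L2 d}
    (hm : m ∈ closure (Submodule.span ℂ {φ : L2 d | ∃ E₀ : ℝ, IsEigen V E₀ φ} : Set (L2 d))) :
    ∃ S : Set ℝ, S.Countable ∧ Carried V m S := by
  obtain ⟨x, hx, hlim⟩ := mem_closure_iff_seq_limit.1 hm
  have h1 : ∀ k : ℕ, ∃ S : Set ℝ, S.Countable ∧ Carried V (x k) S := fun k =>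
    carried_span hex hpar (hx k)
  obtain ⟨S, hS⟩ : ∃ S : ℕ → Set ℝ, ∀ k, (S k).Countable ∧ Carried V (x k) (S k) :=
    ⟨fun k => (h1 k).choose, fun k => (h1 k).choose_spec⟩
  refine ⟨⋃ k, S k, Set.countable_iUnion fun k => (hS k).1, fun μ hμ => ?_⟩
  have h2 : ∀ k : ℕ, μ (⋃ k, S k)ᶜ ≤ 2 * ENNReal.ofReal (‖m - x k‖ ^ 2) := by
    intro k
    obtain ⟨ν, hν⟩ := hex d V (x k)
    obtain ⟨ρ, hρ⟩ := hex d V (m - x k)
    have h3 : SpecM V (x k + (m - x k)) μ := by
      rw [add_sub_cancel]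
      exact hμ
    have h4 := (hpar d V (x k) ν hν).1 (m - x k) ρ μ (⋃ k, S k)ᶜ hρ h3
    rw [((hS k).2.mono (Set.subset_iUnion S k)) ν hν, mul_zero, zero_add] at h4
    refine h4.trans ?_
    gcongr
    exact (measure_mono (Set.subset_univ _)).trans (hpar d V (m - x k) ρ hρ).2.2.2
  have h3 : Tendsto (fun k : ℕ => 2 * ENNReal.ofReal (‖m - x k‖ ^ 2)) atTop (𝓝 0) := by
    have h4 : Tendsto (fun k : ℕ => ‖m - x k‖ ^ 2) atTop (𝓝 0) := by
      have h5 : Tendsto (fun k : ℕ => ‖m - x k‖) atTop (𝓝 ‖m - m‖) :=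
        (tendsto_const_nhds.sub hlim).norm
      rw [sub_self, norm_zero] at h5
      have h6 := h5.pow 2
      rwa [zero_pow two_ne_zero] at h6
    have h5 := ENNReal.tendsto_ofReal h4
    rw [ENNReal.ofReal_zero] at h5
    have h6 := ENNReal.Tendsto.const_mul (a := 2) h5 (Or.inr ENNReal.ofNat_ne_top)
    rwa [mul_zero] at h6
  exact le_antisymm (ge_of_tendsto h3 (Eventually.of_forall h2)) zero_le

/-- a vector orthogonal to the eigenfunctions: no spectral measure where they are complete -/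
theorem null_of_orth (hop : OpnStmt) {V : Site d → ℝ} {a r : ℝ} {v : L2 d} {μ : Measure ℝ}
    (hr : 0 < r) (hcpl : CplJ V a r) (hv : Orth V (Set.Icc (a - r) (a + r)) v)
    (hμ : SpecM V v μ) : μ (Set.Ioo (a - r / 2) (a + r / 2)) = 0 := by
  have hv2 : ∀ η : ℝ, 0 < η → ∀ E ∈ Set.Ioo (a - r / 2) (a + r / 2),
      ‖G V (zz η E) v‖ ≤ 4 / r * ‖v‖ := by
    intro η hη E hE
    have h1 := H81.wtc d V a r η E v hη hcpl hv
    have h2 : |E - a| ≤ r / 2 := by
      rw [abs_le]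
      obtain ⟨h3, h4⟩ := hE
      exact ⟨by linarith only [h3], by linarith only [h4]⟩
    have h3 : r / 2 * ‖G V (zz η E) v‖ ≤ (r - |E - a|) * ‖G V (zz η E) v‖ :=
      mul_le_mul_of_nonneg_right (by linarith only [h2]) (norm_nonneg _)
    rw [div_mul_eq_mul_div, le_div_iff₀ hr]
    linarith only [h1, h3]
  have hv3 : ∀ η : ℝ, 0 < η → wt V (Set.Ioo (a - r / 2) (a + r / 2)) η v ≤
      ENNReal.ofReal (η * (1 / Real.pi * (4 / r * ‖v‖) ^ 2)) * ENNReal.ofReal r := by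
    intro η hη
    unfold wt
    calc ∫⁻ E in Set.Ioo (a - r / 2) (a + r / 2), ENNReal.ofReal (η / Real.pi * ‖G V (zz η E) v‖ ^ 2)
        ≤ ∫⁻ _ in Set.Ioo (a - r / 2) (a + r / 2),
            ENNReal.ofReal (η * (1 / Real.pi * (4 / r * ‖v‖) ^ 2)) := by
          refine setLIntegral_mono' measurableSet_Ioo fun E hE => ENNReal.ofReal_le_ofReal ?_
          have h1 : ‖G V (zz η E) v‖ ^ 2 ≤ (4 / r * ‖v‖) ^ 2 :=
            pow_le_pow_left₀ (norm_nonneg _) (hv2 η hη E hE) 2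
          have h2 : 0 ≤ η / Real.pi := div_nonneg hη.le Real.pi_pos.le
          have h3 := mul_le_mul_of_nonneg_left h1 h2
          have h4 : η / Real.pi * (4 / r * ‖v‖) ^ 2 = η * (1 / Real.pi * (4 / r * ‖v‖) ^ 2) := by
            ring
          rw [← h4]; exact h3
      _ = ENNReal.ofReal (η * (1 / Real.pi * (4 / r * ‖v‖) ^ 2)) * ENNReal.ofReal r := by
          rw [setLIntegral_const, Real.volume_Ioo]
          congr 2
          ring
  have hv4 : Tendsto (fun η : ℝ =>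
      ENNReal.ofReal (η * (1 / Real.pi * (4 / r * ‖v‖) ^ 2)) * ENNReal.ofReal r)
      (𝓝[>] 0) (𝓝 0) := by
    have h1 : Tendsto (fun η : ℝ => η * (1 / Real.pi * (4 / r * ‖v‖) ^ 2)) (𝓝[>] 0) (𝓝 0) := by
      have h2 : Tendsto (fun η : ℝ => η * (1 / Real.pi * (4 / r * ‖v‖) ^ 2)) (𝓝 0)
          (𝓝 (0 * (1 / Real.pi * (4 / r * ‖v‖) ^ 2))) := tendsto_id.mul_const _
      rw [zero_mul] at h2
      exact h2.mono_left nhdsWithin_le_nhds
    have h3 := ENNReal.tendsto_ofReal h1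
    rw [ENNReal.ofReal_zero] at h3
    have h4 := ENNReal.Tendsto.mul_const (b := ENNReal.ofReal r) h3
      (Or.inr ENNReal.ofReal_ne_top)
    rwa [zero_mul] at h4
  refine le_antisymm (le_of_forall_pos_le_add fun ε hε => ?_) zero_le
  rw [zero_add]
  refine (hop d V v μ _ hμ).1 ε isOpen_Ioo ?_
  have h5 : ∀ᶠ η in 𝓝[>] (0 : ℝ), wt V (Set.Ioo (a - r / 2) (a + r / 2)) η v ≤ ε := by
    have h6 := (tendsto_order.1 hv4).2 ε hε
    filter_upwards [h6, self_mem_nhdsWithin] with η h7 h8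
    exact (hv3 η h8).trans h7.le
  exact h5.frequently

theorem ppt (hex : ExmStmt) (hop : OpnStmt) (hpar : ParStmt) : PptStmt := by
  intro d V O I hO hcpl hI u μ hμ
  have hμ' := (smi d V u μ).1 hμ
  obtain ⟨M, hM⟩ : ∃ M : Submodule ℂ (L2 d),
      M = (Submodule.span ℂ {φ : L2 d | ∃ E₀ : ℝ, IsEigen V E₀ φ}).topologicalClosure := ⟨_, rfl⟩
  have hMc : IsClosed (M : Set (L2 d)) := by
    rw [hM]; exact Submodule.isClosed_topologicalClosure _
  have hcs : CompleteSpace M := hMc.completeSpace_coe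
  obtain ⟨m, hm, v, hv, huv⟩ := Submodule.exists_add_mem_mem_orthogonal (K := M) u
  obtain ⟨S, hS, hSm⟩ : ∃ S : Set ℝ, S.Countable ∧ Carried V m S := by
    refine carried_closure hex hpar ?_
    rw [← Submodule.topologicalClosure_coe, ← hM]
    exact hm
  obtain ⟨μm, hμm⟩ := hex d V m
  obtain ⟨μv, hμv⟩ := hex d V v
  have hv1 : ∀ J : Set ℝ, Orth V J v := by
    intro J E φ _ hφ
    have h1 : φ ∈ M := by
      rw [hM]
      exact Submodule.le_topologicalClosure _ (Submodule.subset_span ⟨E, hφ⟩)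
    exact (Submodule.mem_orthogonal M v).1 hv φ h1
  have hvO : μv O = 0 := by
    refine measure_null_of_locally_null O fun a ha => ?_
    obtain ⟨r, hr, hr1⟩ := Metric.isOpen_iff.1 hO a ha
    have hr2 : Set.Icc (a - r / 2) (a + r / 2) ⊆ O := by
      intro E hE
      apply hr1
      rw [Metric.mem_ball, Real.dist_eq, abs_lt]
      obtain ⟨h3, h4⟩ := hE
      exact ⟨by linarith only [h3, hr], by linarith only [h4, hr]⟩
    refine ⟨Set.Ioo (a - r / 2 / 2) (a + r / 2 / 2), ?_, ?_⟩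
    · refine mem_nhdsWithin_of_mem_nhds (Ioo_mem_nhds ?_ ?_)
      · linarith only [hr]
      · linarith only [hr]
    · exact null_of_orth hop (half_pos hr) (hcpl a (r / 2) hr2) (hv1 _) hμv
  refine ⟨S ∪ (I \ O), hS.union hI, ?_⟩
  have hsub : I \ (S ∪ (I \ O)) ⊆ O \ S := by
    rintro E ⟨h1, h2⟩
    refine ⟨?_, fun h => h2 (Or.inl h)⟩
    by_contra h3
    exact h2 (Or.inr ⟨h1, h3⟩)
  refine measure_mono_null hsub ?_
  rw [huv] at hμ'
  have h1 := (hpar d V m μm hμm).1 v μv μ (O \ S) hμv hμ'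
  have h2 : μm (O \ S) = 0 := measure_mono_null (fun E hE => hE.2) (hSm μm hμm)
  have h3 : μv (O \ S) = 0 := measure_mono_null Set.sdiff_subset hvO
  rw [h2, h3, mul_zero, add_zero] at h1
  exact le_antisymm h1 zero_le

end Pool.Agent.SPX.H54
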